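import Pool.Agent.helper91.RB.Spec1

/-!
Row rb:THU (MP_24e2e7_nt): the units act on the theta series.
-/

set_option autoImplicit false

namespace Pool.Agent.RB

open NumberField NumberField.InfinitePlace NumberField.Units NumberField.Units.dirichletUnitTheorem
open MeasureTheory Filter Topology Module
open scoped nonZeroDivisors Real Classical

/-- multiplication by a unit -/
noncomputable def THU_equiv (K : Type) [Field K] [NumberField K] (M : Submodule (𝓞 K) K) (u : (𝓞 K)ˣ) :
    (M : Set K) ≃ (M : Set K) where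
  toFun x := ⟨(u : K) * x, M.smul_mem (u : 𝓞 K) x.2⟩
  invFun x := ⟨((u⁻¹ : (𝓞 K)ˣ) : K) * x, M.smul_mem ((u⁻¹ : (𝓞 K)ˣ) : 𝓞 K) x.2⟩
  left_inv x := by
    apply Subtype.ext
    show ((u⁻¹ : (𝓞 K)ˣ) : K) * ((u : K) * x) = x
    rw [← mul_assoc, ← NumberField.Units.coe_mul, inv_mul_cancel, NumberField.Units.coe_one, one_mul]
  right_inv x := by
    apply Subtype.ext
    show (u : K) * (((u⁻¹ : (𝓞 K)ˣ) : K) * x) = x
    rw [← mul_assoc, ← NumberField.Units.coe_mul, mul_inv_cancel, NumberField.Units.coe_one, one_mul]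

theorem THU : THU_stmt := by
  intro K _ _ J u t
  refine Eq.trans ?_ ((THU_equiv K (J : Submodule (𝓞 K) K) u).tsum_eq
    (fun x : ((J : Submodule (𝓞 K) K) : Set K) => Real.exp (-π * qf K t x)))
  unfold th
  refine tsum_congr fun x => ?_
  have h : qf K (fun v => v (u : K) ^ 2 * t v) (x : K) = qf K t ((u : K) * x) := by
    unfold qf
    refine Finset.sum_congr rfl fun v _ => ?_
    rw [map_mul]
    ring
  rw [h]
  rfl

end Pool.Agent.RB
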